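import Pool.Agent.Helper23.EC.EGoals

/-! Packet EC1 of MP_ecc237_nt, Part E (helper23). -/

set_option autoImplicit false

open MeasureTheory Filter Topology Set

namespace Pool.Agent.Helper19.EC.E_EC1

open EC237 Complex

/-- `K⁻¹ = -i z u`. -/
theorem KA_inv (z : ℝ) (hz : 0 < z) (n m : ℤ) :
    (KA ((z⁻¹:ℝ):ℂ) (n, m))⁻¹ = -(I * z) * uz z n m := by
  have hz0 : (z:ℂ) ≠ 0 := by exact_mod_cast hz.ne'
  have h1 : KA ((z⁻¹:ℝ):ℂ) (n, m) = (I / z) * ((m:ℂ) - I * n * z) := by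
    unfold KA
    push_cast
    field_simp
    linear_combination ((n:ℂ) * (z:ℂ)) * I_sq
  rw [h1, mul_inv]
  unfold uz
  congr 1
  field_simp
  rw [I_sq]
  ring

/-- `K*⁻¹ = i z v`. -/
theorem KB_inv (z : ℝ) (hz : 0 < z) (n m : ℤ) :
    (KB ((z⁻¹:ℝ):ℂ) (n, m))⁻¹ = (I * z) * vz z n m := by
  have hz0 : (z:ℂ) ≠ 0 := by exact_mod_cast hz.ne'
  have h1 : KB ((z⁻¹:ℝ):ℂ) (n, m) = (-(I / z)) * ((m:ℂ) + I * n * z) := by
    unfold KB
    push_cast
    field_simp
    linear_combination ((n:ℂ) * (z:ℂ)) * I_sq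
  rw [h1, mul_inv]
  unfold vz
  congr 1
  field_simp
  rw [I_sq]

/-- coefficients of `A1 B2` -/
noncomputable def cc (z : ℝ) (a a' : ℂ) (j : ℕ) (u v : ℂ) : ℂ :=
  if j = 0 then (z:ℂ) ^ 2 * (u * v)
  else if j = 1 then (z:ℂ) ^ 3 * (-(I * a * (u ^ 2 * v)) + I * a' * (u * v ^ 2))
  else (z:ℂ) ^ 4 * (-(a ^ 2 * (u ^ 3 * v)) + a * a' * (u ^ 2 * v ^ 2) - a' ^ 2 * (u * v ^ 3))

theorem coeff_AB (z : ℝ) (hz : 0 < z) (n1 m1 n2 m2 a a' : ℤ) (j : ℕ) (hj : j ≤ 2) :
    PowerSeries.coeff j (As ((z⁻¹:ℝ):ℂ) ((n1, m1), a) * Bs ((z⁻¹:ℝ):ℂ) ((n2, m2), a')) =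
      cc z a a' j (uz z n1 m1) (vz z n2 m2) := by
  unfold As Bs gser
  simp only
  rw [KA_inv z hz, KB_inv z hz, PowerSeries.coeff_mul]
  have h3 : I ^ 3 = -I := I_pow_three
  have h4 : I ^ 4 = 1 := I_pow_four
  interval_cases j
  · rw [Finset.Nat.sum_antidiagonal_eq_sum_range_succ_mk]
    simp only [Finset.sum_range_succ, Finset.sum_range_zero, PowerSeries.coeff_mk, cc]
    simp
    ring_nf
    rw [I_sq]
    ring
  · rw [Finset.Nat.sum_antidiagonal_eq_sum_range_succ_mk]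
    simp only [Finset.sum_range_succ, Finset.sum_range_zero, PowerSeries.coeff_mk, cc]
    simp
    ring_nf
    rw [h3]
    ring
  · rw [Finset.Nat.sum_antidiagonal_eq_sum_range_succ_mk]
    simp only [Finset.sum_range_succ, Finset.sum_range_zero, PowerSeries.coeff_mk, cc]
    simp
    ring_nf
    rw [h4]
    ring

theorem coeff_BA (z : ℝ) (n1 m1 n2 m2 a a' : ℤ) (j : ℕ) :
    PowerSeries.coeff j (Bs ((z⁻¹:ℝ):ℂ) ((n1, m1), a) * As ((z⁻¹:ℝ):ℂ) ((n2, m2), a')) =
      (starRingEnd ℂ) (PowerSeries.coeff j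
        (As ((z⁻¹:ℝ):ℂ) ((n1, m1), a) * Bs ((z⁻¹:ℝ):ℂ) ((n2, m2), a'))) := by
  rw [PowerSeries.coeff_mul, PowerSeries.coeff_mul, map_sum]
  refine Finset.sum_congr rfl fun p _ => ?_
  have hK : ∀ k : ℤ × ℤ, (starRingEnd ℂ) (KA ((z⁻¹:ℝ):ℂ) k) = KB ((z⁻¹:ℝ):ℂ) k := by
    intro k
    unfold KA KB
    simp only [map_add, map_mul, conj_I, conj_ofReal, map_intCast]
    ring
  have hK' : ∀ k : ℤ × ℤ, (starRingEnd ℂ) (KB ((z⁻¹:ℝ):ℂ) k) = KA ((z⁻¹:ℝ):ℂ) k := by
    intro k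
    rw [← hK k, conj_conj]
  unfold As Bs gser
  simp only [PowerSeries.coeff_mk, map_mul, map_pow, map_intCast, map_inv₀, hK, hK']

theorem coeff_XX (z : ℝ) (hz : 0 < z) (n1 m1 n2 m2 a a' : ℤ) (j : ℕ) (hj : j ≤ 2) :
    PowerSeries.coeff j (XX ((z⁻¹:ℝ):ℂ) ((n1, m1), a) ((n2, m2), a')) =
      ((2 * (cc z a a' j (uz z n1 m1) (vz z n2 m2)).im : ℝ) : ℂ) * I := by
  unfold XX
  rw [map_sub, coeff_BA, coeff_AB z hz n1 m1 n2 m2 a a' j hj]
  rw [sub_conj]

/-- bound of `u`, `v`. -/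
theorem norm_uz (z : ℝ) (hz : 0 < z) (n m : ℤ) : ‖uz z n m‖ ≤ 1 + z⁻¹ := by
  unfold uz
  rw [norm_inv]
  have hzi : 0 < z⁻¹ := inv_pos.2 hz
  by_cases hm : m = 0
  · by_cases hn : n = 0
    · subst hm hn
      simp
      linarith
    · subst hm
      have h1 : ‖((0:ℤ):ℂ) - I * n * z‖ = |(n:ℝ)| * z := by
        rw [Int.cast_zero, zero_sub, norm_neg, norm_mul, norm_mul, norm_I, one_mul, norm_intCast,
          norm_real, Real.norm_eq_abs, abs_of_pos hz]
      rw [h1]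
      have h2 : (1:ℝ) ≤ |(n:ℝ)| := by
        exact_mod_cast Int.one_le_abs hn
      have h3 : z ≤ |(n:ℝ)| * z := le_mul_of_one_le_left hz.le h2
      calc (|(n:ℝ)| * z)⁻¹ ≤ z⁻¹ := inv_anti₀ hz h3
        _ ≤ 1 + z⁻¹ := by linarith
  · have h1 : (1:ℝ) ≤ ‖(m:ℂ) - I * n * z‖ := by
      have h2 : ((m:ℂ) - I * n * z).re = (m:ℝ) := by
        simp
      have h3 := abs_re_le_norm ((m:ℂ) - I * n * z)
      rw [h2] at h3
      have h4 : (1:ℝ) ≤ |(m:ℝ)| := by exact_mod_cast Int.one_le_abs hm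
      linarith
    calc ‖(m:ℂ) - I * n * z‖⁻¹ ≤ 1 := inv_le_one_of_one_le₀ h1
      _ ≤ 1 + z⁻¹ := by linarith

theorem norm_vz (z : ℝ) (hz : 0 < z) (n m : ℤ) : ‖vz z n m‖ ≤ 1 + z⁻¹ := by
  have h : vz z n m = uz z (-n) m := by
    unfold uz vz
    push_cast
    congr 1
    ring
  rw [h]
  exact norm_uz z hz (-n) m

/-- summability of `u^p v^q` for `p, q ≥ 1`. -/
theorem summable_uv (hEB1 : EB1) (z : ℝ) (hz : 0 < z) (c m n1 n2 : ℤ) (p q : ℕ) :
    Summable (fun m1 : ℤ => if (m1 - c) % 6 = 0 then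
      uz z n1 m1 ^ (p + 1) * vz z n2 (m - m1) ^ (q + 1) else 0) := by
  have hU : Summable (fun m1 : ℤ => ‖(if (m1 - c) % 6 = 0 then uz z n1 m1 ^ 2 else 0 : ℂ)‖) :=
    ((hEB1 z hz c n1 0 0).1 2 le_rfl).1.norm
  have hV0 : Summable (fun m' : ℤ => ‖(if (m' - (m - c)) % 6 = 0 then
      vz z n2 m' ^ 2 else 0 : ℂ)‖) :=
    ((hEB1 z hz (m - c) n2 0 0).1 2 le_rfl).2.norm
  have hV : Summable (fun m1 : ℤ => ‖(if (m1 - c) % 6 = 0 then
      vz z n2 (m - m1) ^ 2 else 0 : ℂ)‖) := by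
    have h1 := (Equiv.subLeft m).summable_iff.2 hV0
    refine h1.congr ?_
    intro m1
    simp only [Function.comp, Equiv.subLeft_apply]
    have h2 : ((m - m1 - (m - c)) % 6 = 0) ↔ ((m1 - c) % 6 = 0) := by omega
    by_cases h : (m1 - c) % 6 = 0
    · rw [if_pos h, if_pos (h2.2 h)]
    · rw [if_neg h, if_neg (fun h' => h (h2.1 h'))]
  refine Summable.of_norm_bounded (g := fun m1 : ℤ => (1 + z⁻¹) ^ (p + q) *
    (‖(if (m1 - c) % 6 = 0 then uz z n1 m1 ^ 2 else 0 : ℂ)‖ +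
      ‖(if (m1 - c) % 6 = 0 then vz z n2 (m - m1) ^ 2 else 0 : ℂ)‖)) ((hU.add hV).mul_left _) ?_
  intro m1
  have hB : (0:ℝ) ≤ 1 + z⁻¹ := by positivity
  by_cases h : (m1 - c) % 6 = 0
  · rw [if_pos h, if_pos h, if_pos h, norm_mul, norm_pow, norm_pow, norm_pow, norm_pow]
    have hu := norm_uz z hz n1 m1
    have hv := norm_vz z hz n2 (m - m1)
    set U : ℝ := ‖uz z n1 m1‖ with hUd
    set V : ℝ := ‖vz z n2 (m - m1)‖ with hVd
    have hU0 : 0 ≤ U := norm_nonneg _
    have hV0' : 0 ≤ V := norm_nonneg _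
    have e1 : U ^ (p + 1) * V ^ (q + 1) = (U ^ p * V ^ q) * (U * V) := by ring
    rw [e1]
    have e2 : U ^ p * V ^ q ≤ (1 + z⁻¹) ^ (p + q) := by
      rw [pow_add]
      exact mul_le_mul (pow_le_pow_left₀ hU0 hu p) (pow_le_pow_left₀ hV0' hv q)
        (pow_nonneg hV0' q) (pow_nonneg hB p)
    have e3 : U * V ≤ U ^ 2 + V ^ 2 := by nlinarith [sq_nonneg (U - V), sq_nonneg U, sq_nonneg V]
    exact mul_le_mul e2 e3 (mul_nonneg hU0 hV0') (pow_nonneg hB _)
  · rw [if_neg h, if_neg h, if_neg h]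
    simp

theorem summable_cc (hEB1 : EB1) (z : ℝ) (hz : 0 < z) (c m n1 n2 : ℤ) (a a' : ℂ) (j : ℕ) :
    Summable (fun m1 : ℤ => if (m1 - c) % 6 = 0 then
      cc z a a' j (uz z n1 m1) (vz z n2 (m - m1)) else 0) := by
  have h00 := summable_uv hEB1 z hz c m n1 n2 0 0
  have h10 := summable_uv hEB1 z hz c m n1 n2 1 0
  have h01 := summable_uv hEB1 z hz c m n1 n2 0 1
  have h20 := summable_uv hEB1 z hz c m n1 n2 2 0
  have h11 := summable_uv hEB1 z hz c m n1 n2 1 1
  have h02 := summable_uv hEB1 z hz c m n1 n2 0 2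
  unfold cc
  by_cases hj0 : j = 0
  · simp only [if_pos hj0]
    refine (h00.mul_left ((z:ℂ) ^ 2)).congr ?_
    intro m1
    split_ifs
    · ring
    · ring
  · by_cases hj1 : j = 1
    · simp only [if_neg hj0, if_pos hj1]
      refine (((h10.mul_left (-(I * a))).add (h01.mul_left (I * a'))).mul_left
        ((z:ℂ) ^ 3)).congr ?_
      intro m1
      split_ifs
      · ring
      · ring
    · simp only [if_neg hj0, if_neg hj1]
      refine ((((h20.mul_left (-(a ^ 2))).add (h11.mul_left (a * a'))).add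
        (h02.mul_left (-(a' ^ 2)))).mul_left ((z:ℂ) ^ 4)).congr ?_
      intro m1
      split_ifs
      · ring
      · ring

/-- the algebraic identity -/
theorem cc_eq (z : ℝ) (a a' : ℂ) (j : ℕ) (u v M : ℂ) (hM : M ≠ 0) (huv : u * v * M = u + v) :
    cc z a a' j u v = FX z a a' j M (u + v) (u ^ 2) (u ^ 3) (v ^ 2) (v ^ 3) := by
  have h1 : u * v = (u + v) / M := by
    rw [eq_div_iff hM, huv]
  have h2 : u ^ 2 * v = u ^ 2 / M + (u + v) / M ^ 2 := by
    have : u ^ 2 * v = u * (u * v) := by ring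
    rw [this, h1]
    have e : u * ((u + v) / M) = u ^ 2 / M + (u * v) / M := by ring
    rw [e, h1]
    field_simp
  have h3 : u * v ^ 2 = v ^ 2 / M + (u + v) / M ^ 2 := by
    have : u * v ^ 2 = v * (u * v) := by ring
    rw [this, h1]
    have e : v * ((u + v) / M) = v ^ 2 / M + (u * v) / M := by ring
    rw [e, h1]
    field_simp
  have h4 : u ^ 3 * v = u ^ 3 / M + u ^ 2 / M ^ 2 + (u + v) / M ^ 3 := by
    have : u ^ 3 * v = u * (u ^ 2 * v) := by ring
    rw [this, h2]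
    have e : u * (u ^ 2 / M + (u + v) / M ^ 2) = u ^ 3 / M + u ^ 2 / M ^ 2 + (u * v) / M ^ 2 := by
      ring
    rw [e, h1]
    field_simp
  have h5 : u * v ^ 3 = v ^ 3 / M + v ^ 2 / M ^ 2 + (u + v) / M ^ 3 := by
    have : u * v ^ 3 = v * (u * v ^ 2) := by ring
    rw [this, h3]
    have e : v * (v ^ 2 / M + (u + v) / M ^ 2) = v ^ 3 / M + v ^ 2 / M ^ 2 + (u * v) / M ^ 2 := by
      ring
    rw [e, h1]
    field_simp
  have h6 : u ^ 2 * v ^ 2 = (u ^ 2 + v ^ 2) / M ^ 2 + 2 * ((u + v) / M ^ 3) := by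
    have : u ^ 2 * v ^ 2 = (u * v) * (u * v) := by ring
    rw [this, h1]
    have e : (u + v) / M * ((u + v) / M) = (u ^ 2 + v ^ 2) / M ^ 2 + 2 * (u * v) / M ^ 2 := by
      field_simp
      ring
    rw [e, h1]
    field_simp
  unfold cc FX
  by_cases hj0 : j = 0
  · rw [if_pos hj0, if_pos hj0, h1]
  · by_cases hj1 : j = 1
    · rw [if_neg hj0, if_pos hj1, if_neg hj0, if_pos hj1, h2, h3]
    · rw [if_neg hj0, if_neg hj1, if_neg hj0, if_neg hj1, h4, h5, h6]

/-- `FX` is linear in `(S, U2, U3, V2, V3)`: passage to sums. -/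
theorem hasSum_FX (z : ℝ) (a a' : ℂ) (j : ℕ) (M : ℂ) {P : ℤ → Prop} [DecidablePred P]
    {s u2 u3 v2 v3 : ℤ → ℂ} {S U2 U3 V2 V3 : ℂ}
    (hs : HasSum (fun m => if P m then s m else 0) S)
    (hu2 : HasSum (fun m => if P m then u2 m else 0) U2)
    (hu3 : HasSum (fun m => if P m then u3 m else 0) U3)
    (hv2 : HasSum (fun m => if P m then v2 m else 0) V2)
    (hv3 : HasSum (fun m => if P m then v3 m else 0) V3) :
    HasSum (fun m => if P m then FX z a a' j M (s m) (u2 m) (u3 m) (v2 m) (v3 m) else 0)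
      (FX z a a' j M S U2 U3 V2 V3) := by
  unfold FX
  by_cases hj0 : j = 0
  · simp only [if_pos hj0]
    have h := (hs.div_const M).mul_left ((z:ℂ) ^ 2)
    refine h.congr_fun ?_
    intro m
    split_ifs
    · rfl
    · simp
  · by_cases hj1 : j = 1
    · simp only [if_neg hj0, if_pos hj1]
      have hA := ((hu2.div_const M).add (hs.div_const (M ^ 2))).mul_left (-(I * a))
      have hB := ((hv2.div_const M).add (hs.div_const (M ^ 2))).mul_left (I * a')
      have h := (hA.add hB).mul_left ((z:ℂ) ^ 3)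
      have e1 : (fun m => if P m then (z:ℂ) ^ 3 * (-(I * a * (u2 m / M + s m / M ^ 2))
          + I * a' * (v2 m / M + s m / M ^ 2)) else 0) = fun i =>
          (z:ℂ) ^ 3 * (-(I * a) * ((if P i then u2 i else 0) / M + (if P i then s i else 0) / M ^ 2) +
          I * a' * ((if P i then v2 i else 0) / M + (if P i then s i else 0) / M ^ 2)) := by
        funext m
        split_ifs
        · ring
        · simp
      have e2 : (z:ℂ) ^ 3 * (-(I * a * (U2 / M + S / M ^ 2)) + I * a' * (V2 / M + S / M ^ 2)) =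
          (z:ℂ) ^ 3 * (-(I * a) * (U2 / M + S / M ^ 2) + I * a' * (V2 / M + S / M ^ 2)) := by ring
      rw [e1, e2]
      exact h
    · simp only [if_neg hj0, if_neg hj1]
      have hA := (((hu3.div_const M).add (hu2.div_const (M ^ 2))).add
        (hs.div_const (M ^ 3))).mul_left (-(a ^ 2))
      have hB := (((hu2.add hv2).div_const (M ^ 2)).add
        ((hs.div_const (M ^ 3)).mul_left 2)).mul_left (a * a')
      have hC := (((hv3.div_const M).add (hv2.div_const (M ^ 2))).add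
        (hs.div_const (M ^ 3))).mul_left (-(a' ^ 2))
      have h := ((hA.add hB).add hC).mul_left ((z:ℂ) ^ 4)
      have e1 : (fun m => if P m then (z:ℂ) ^ 4 * (-(a ^ 2 * (u3 m / M + u2 m / M ^ 2 + s m / M ^ 3))
          + a * a' * ((u2 m + v2 m) / M ^ 2 + 2 * (s m / M ^ 3))
          - a' ^ 2 * (v3 m / M + v2 m / M ^ 2 + s m / M ^ 3)) else 0) = fun i =>
          (z:ℂ) ^ 4 * (-a ^ 2 * ((if P i then u3 i else 0) / M + (if P i then u2 i else 0) / M ^ 2 +
            (if P i then s i else 0) / M ^ 3) +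
            a * a' * (((if P i then u2 i else 0) + if P i then v2 i else 0) / M ^ 2 +
              2 * ((if P i then s i else 0) / M ^ 3)) +
            -a' ^ 2 * ((if P i then v3 i else 0) / M + (if P i then v2 i else 0) / M ^ 2 +
              (if P i then s i else 0) / M ^ 3)) := by
        funext m
        split_ifs
        · ring
        · simp
      have e2 : (z:ℂ) ^ 4 * (-(a ^ 2 * (U3 / M + U2 / M ^ 2 + S / M ^ 3))
          + a * a' * ((U2 + V2) / M ^ 2 + 2 * (S / M ^ 3))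
          - a' ^ 2 * (V3 / M + V2 / M ^ 2 + S / M ^ 3)) =
          (z:ℂ) ^ 4 * (-a ^ 2 * (U3 / M + U2 / M ^ 2 + S / M ^ 3)
          + a * a' * ((U2 + V2) / M ^ 2 + 2 * (S / M ^ 3))
          + -a' ^ 2 * (V3 / M + V2 / M ^ 2 + S / M ^ 3)) := by ring
      rw [e1, e2]
      exact h

theorem thm (hEB1 : EC237.EB1) : EC237.EC1 := by
  intro z hz c a a' j k m n1 hj
  have hcl : ∀ m1 : ℤ, InCl c (n1, m1) ↔ (m1 - (c - 3 * n1)) % 6 = 0 := by
    intro m1
    unfold InCl
    simp only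
    have : m1 + 3 * n1 - c = m1 - (c - 3 * n1) := by ring
    rw [this]
  have hterm : (fun m1 : ℤ => if InCl c (n1, m1) then
      PowerSeries.coeff j (XX ((z⁻¹:ℝ):ℂ) ((n1, m1), a) ((k - n1, m - m1), a')) else 0) =
      fun m1 : ℤ => ((2 * (if (m1 - (c - 3 * n1)) % 6 = 0 then
        cc z a a' j (uz z n1 m1) (vz z (k - n1) (m - m1)) else 0 : ℂ).im : ℝ) : ℂ) * I := by
    funext m1
    by_cases h : (m1 - (c - 3 * n1)) % 6 = 0
    · rw [if_pos ((hcl m1).2 h), if_pos h, coeff_XX z hz n1 m1 (k - n1) (m - m1) a a' j hj]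
    · rw [if_neg (fun h' => h ((hcl m1).1 h')), if_neg h]
      simp
  have hmap : ∀ {f : ℤ → ℂ} {S : ℂ}, HasSum f S →
      HasSum (fun m1 : ℤ => ((2 * (f m1).im : ℝ) : ℂ) * I) (((2 * S.im : ℝ) : ℂ) * I) := by
    intro f S hf
    have h1 : HasSum (fun m1 => (f m1).im) S.im := imCLM.hasSum hf
    have h2 := h1.mul_left 2
    have h3 : HasSum (fun m1 => ((2 * (f m1).im : ℝ) : ℂ)) ((2 * S.im : ℝ) : ℂ) :=
      ofRealCLM.hasSum h2
    exact h3.mul_right I
  have hsum := summable_cc hEB1 z hz (c - 3 * n1) m n1 (k - n1) a a' j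
  constructor
  · rw [hterm]
    exact (hmap hsum.hasSum).summable
  · intro hM hn1 hn2
    have hz0 : (z:ℂ) ≠ 0 := by exact_mod_cast hz.ne'
    have hne : ∀ n m' : ℤ, (n ≠ 0 ∨ m' ≠ 0) → (m':ℂ) - I * n * z ≠ 0 := by
      intro n m' h h0
      have hre := congrArg re h0
      have him := congrArg im h0
      simp at hre him
      rcases h with h | h
      · rcases him with him | him
        · exact h him
        · exact hz.ne' him
      · exact h hre
    have hne' : ∀ n m' : ℤ, (n ≠ 0 ∨ m' ≠ 0) → (m':ℂ) + I * n * z ≠ 0 := by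
      intro n m' h
      have := hne (-n) m' (by
        rcases h with h | h
        · left; exact neg_ne_zero.2 h
        · right; exact h)
      push_cast at this
      intro h0
      apply this
      rw [← h0]
      ring
    -- closed form of the terms
    have hcc : ∀ m1 : ℤ, (m1 - (c - 3 * n1)) % 6 = 0 →
        cc z a a' j (uz z n1 m1) (vz z (k - n1) (m - m1)) =
        FX z a a' j (MM z k m n1) (uz z n1 m1 + vz z (k - n1) (m - m1)) (uz z n1 m1 ^ 2)
          (uz z n1 m1 ^ 3) (vz z (k - n1) (m - m1) ^ 2) (vz z (k - n1) (m - m1) ^ 3) := by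
      intro m1 hm1
      apply cc_eq z _ _ j _ _ _ hM
      have hu : (m1:ℂ) - I * n1 * z ≠ 0 := by
        apply hne
        by_cases h : n1 = 0
        · right
          rcases hn1 with h1 | h1
          · exact absurd h h1
          · intro h2
            apply h1
            rw [h, h2] at hm1
            omega
        · left; exact h
      have hv : ((m - m1 : ℤ):ℂ) + I * ((k - n1 : ℤ):ℂ) * z ≠ 0 := by
        apply hne'
        by_cases h : k - n1 = 0
        · right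
          rcases hn2 with h1 | h1
          · exact absurd h h1
          · intro h2
            apply h1
            have e1 : k = n1 := by omega
            have e2 : m = m1 := by omega
            rw [e1, e2]
            have : m1 - (c - 3 * n1) = m1 - c + 3 * n1 := by ring
            rw [this] at hm1
            exact hm1
        · left; exact h
      have hMM : MM z k m n1 = ((m1:ℂ) - I * n1 * z) +
          (((m - m1 : ℤ):ℂ) + I * ((k - n1 : ℤ):ℂ) * z) := by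
        unfold MM
        push_cast
        ring
      rw [hMM]
      unfold uz vz
      generalize (m1:ℂ) - I * n1 * z = A at hu
      generalize ((m - m1 : ℤ):ℂ) + I * ((k - n1 : ℤ):ℂ) * z = B at hv
      field_simp
      ring
    have hS : HasSum (fun m1 : ℤ => if (m1 - (c - 3 * n1)) % 6 = 0 then
        uz z n1 m1 + vz z (k - n1) (m - m1) else 0) (eSg z (c - 3 * n1) n1 (k - n1) m) :=
      ((hEB1 z hz (c - 3 * n1) n1 (k - n1) m).2).hasSum
    have hU : ∀ i : ℕ, 2 ≤ i → HasSum (fun m1 : ℤ => if (m1 - (c - 3 * n1)) % 6 = 0 then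
        uz z n1 m1 ^ i else 0) (eU z (c - 3 * n1) n1 i) := fun i hi =>
      (((hEB1 z hz (c - 3 * n1) n1 0 0).1 i hi).1).hasSum
    have hV : ∀ i : ℕ, 2 ≤ i → HasSum (fun m1 : ℤ => if (m1 - (c - 3 * n1)) % 6 = 0 then
        vz z (k - n1) (m - m1) ^ i else 0) (eW z (m - c + 3 * n1) (k - n1) i) := by
      intro i hi
      have h0 : HasSum (fun m' : ℤ => if (m' - (m - c + 3 * n1)) % 6 = 0 then
          vz z (k - n1) m' ^ i else 0) (eW z (m - c + 3 * n1) (k - n1) i) :=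
        (((hEB1 z hz (m - c + 3 * n1) (k - n1) 0 0).1 i hi).2).hasSum
      have h1 := (Equiv.subLeft m).hasSum_iff.2 h0
      refine h1.congr_fun ?_
      intro m1
      simp only [Function.comp, Equiv.subLeft_apply]
      have h2 : ((m - m1 - (m - c + 3 * n1)) % 6 = 0) ↔ ((m1 - (c - 3 * n1)) % 6 = 0) := by omega
      by_cases h : (m1 - (c - 3 * n1)) % 6 = 0
      · rw [if_pos h, if_pos (h2.2 h)]
      · rw [if_neg h, if_neg (fun h' => h (h2.1 h'))]
    have hF := hasSum_FX z (a:ℂ) (a':ℂ) j (MM z k m n1) hS (hU 2 le_rfl) (hU 3 (by norm_num))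
      (hV 2 le_rfl) (hV 3 (by norm_num))
    have hF' : HasSum (fun m1 : ℤ => if (m1 - (c - 3 * n1)) % 6 = 0 then
        cc z a a' j (uz z n1 m1) (vz z (k - n1) (m - m1)) else 0)
        (FX z a a' j (MM z k m n1) (eSg z (c - 3 * n1) n1 (k - n1) m) (eU z (c - 3 * n1) n1 2)
          (eU z (c - 3 * n1) n1 3) (eW z (m - c + 3 * n1) (k - n1) 2)
          (eW z (m - c + 3 * n1) (k - n1) 3)) := by
      refine hF.congr_fun ?_
      intro m1
      by_cases h : (m1 - (c - 3 * n1)) % 6 = 0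
      · rw [if_pos h, if_pos h, hcc m1 h]
      · rw [if_neg h, if_neg h]
    unfold gX
    rw [hterm]
    exact (hmap hF').tsum_eq

end Pool.Agent.Helper19.EC.E_EC1
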